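import Pool.Agent.Mg.F353077.G6837e2

/-! Splitting families with a finitary support operator: the game is won on every compact space
that is split by such families. -/

set_option linter.unusedSectionVars false

open Set Filter Topology Cardinal

namespace Pool.Agent.MP_353077_gt.Cs

section

variable {X : Type} [TopologicalSpace X]

/-- the family is determined, on the closure of `D`, by a subfamily depending finitarily on `D` -/
def LS (Z : Set C(X, ℝ)) : Prop :=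
  ∃ σ : Set X → Set C(X, ℝ), FinOp σ ∧ ∀ D : Set X, ∀ x ∈ closure D, ∀ y ∈ closure D,
    Agree (σ D) x y → Agree Z x y

theorem LS.exists_sigma {Z : Set C(X, ℝ)} (hZ : LS Z) :
    ∃ σ : Set X → Set C(X, ℝ), FinOp σ ∧ ∀ D : Set X, ∀ x ∈ closure D, ∀ y ∈ closure D,
      Agree (σ D) x y → Agree Z x y := hZ

theorem LS.iUnion {Z : ℕ → Set C(X, ℝ)} (h : ∀ i, LS (Z i)) : LS (⋃ i, Z i) := by
  choose σ h1 h2 using h
  refine ⟨fun D => ⋃ i, σ i D, ⟨fun S T hs => iUnion_mono fun i => (h1 i).mono S T hs,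
    fun S b hb => ?_, fun S => countable_iUnion fun i => (h1 i).cnt S⟩, fun D x hx y hy a φ hφ => ?_⟩
  · obtain ⟨i, hi⟩ := mem_iUnion.1 hb
    obtain ⟨S0, a, b⟩ := (h1 i).fin S b hi
    exact ⟨S0, a, mem_iUnion.2 ⟨i, b⟩⟩
  · obtain ⟨i, hi⟩ := mem_iUnion.1 hφ
    exact h2 i D x hx y hy (a.mono (subset_iUnion (fun i => σ i D) i)) φ hi

/-- point-countable families -/
theorem LS.of_countable {Γ : Type} (e : Γ → C(X, ℝ)) (h : ∀ x, {γ | e γ x ≠ 0}.Countable) :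
    LS (range e) := by
  refine ⟨fun D => ⋃ d ∈ D, e '' {γ | e γ d ≠ 0}, FinOp.biUnion _ fun d => (h d).image _, ?_⟩
  rintro D x hx y hy a _ ⟨γ, rfl⟩
  by_cases hc : ∃ d ∈ D, e γ d ≠ 0
  · obtain ⟨d, h1, h2⟩ := hc
    exact a _ (mem_iUnion₂.2 ⟨d, h1, γ, h2, rfl⟩)
  · push Not at hc
    have h0 : EqOn (e γ) (fun _ => 0) (closure D) :=
      EqOn.closure (fun d hd => hc d hd) (e γ).continuous continuous_const
    rw [h0 hx, h0 hy]

/-- every subset is split by such a family -/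
def Split (X : Type) [TopologicalSpace X] : Prop :=
  ∀ A : Set X, ∃ Z : Set C(X, ℝ), LS Z ∧ ∀ x y, Agree Z x y → x ∈ A → y ∈ A

/-- where the game is won, countably many splitting relations separate the points -/
theorem win_seq {K : Set X} (hK : IsClosed K) (h : Win K) (E : Set X → X → X → Prop)
    (hE : ∀ A, Equivalence (E A)) (hc : ∀ A x, IsClosed {y | E A x y})
    (hs : ∀ A x y, E A x y → x ∈ A → y ∈ A) :
    ∃ A : ℕ → Set X, ∀ x ∈ K, ∀ y ∈ K, (∀ n, E (A n) x y) → x = y := by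
  obtain ⟨col, hcol⟩ := h
  let Ag : Set (Set X) → X → X → Prop := fun S x y => ∀ A ∈ S, E A x y
  let cls : Set (Set X) → X → Set X := fun S x => {y | y ∈ K ∧ Ag S x y}
  let nz : Set (Set X) × (X → List (Set X)) → Set (Set X) := fun s =>
    s.1 ∪ range fun k => {x | x ∈ col (s.2 x) k}
  let step : Set (Set X) × (X → List (Set X)) → Set (Set X) × (X → List (Set X)) := fun s =>
    (nz s, fun x => s.2 x ++ [cls (nz s) x])
  let st : ℕ → Set (Set X) × (X → List (Set X)) := fun n => step^[n] ({∅}, fun _ => [])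
  have hst : ∀ n, st (n + 1) = step (st n) := fun n => Function.iterate_succ_apply' step n _
  have hsub : ∀ n, (st n).1 ⊆ (st (n + 1)).1 := fun n => by
    rw [hst]; exact subset_union_left
  have hLS : ∀ n, (st n).1.Countable := by
    intro n
    induction n with
    | zero => exact countable_singleton _
    | succ n ih => rw [hst]; exact ih.union (countable_range _)
  have hinv : ∀ n x y, Ag (st n).1 x y → (st n).2 x = (st n).2 y := by
    intro n
    induction n with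
    | zero => intro x y _; rfl
    | succ n ih =>
      intro x y hxy
      have h1 := ih x y fun A hA => hxy A (hsub n hA)
      rw [hst] at hxy ⊢
      have h2 : cls (nz (st n)) x = cls (nz (st n)) y := by
        ext z
        exact ⟨fun hz => ⟨hz.1, fun A hA => (hE A).trans ((hE A).symm (hxy A hA)) (hz.2 A hA)⟩,
          fun hz => ⟨hz.1, fun A hA => (hE A).trans (hxy A hA) (hz.2 A hA)⟩⟩
      simp only [step, h1, h2]
  have hhist : ∀ x n, (st n).2 x = hist (fun i => cls (st (i + 1)).1 x) n := by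
    intro x n
    induction n with
    | zero => rfl
    | succ n ih => rw [hist, ← ih, hst]
  obtain ⟨A, hA⟩ := (countable_iUnion hLS).exists_eq_range ⟨∅, mem_iUnion.2 ⟨0, rfl⟩⟩
  refine ⟨A, fun x hx y hy hxy => ?_⟩
  refine hcol (fun i => cls (st (i + 1)).1 x) (fun n => ?_) (fun z hz => hz.1)
    (fun n z hz => ⟨hz.1, fun B hB => hz.2 B (hsub _ hB)⟩) (fun n => ?_) x y
    (fun n => ⟨hx, fun B _ => (hE B).refl x⟩) (fun n => ⟨hy, fun B hB => ?_⟩)
  · have : cls (st (n + 1)).1 x = K ∩ ⋂ B ∈ (st (n + 1)).1, {y | E B x y} := by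
      ext z
      simp only [cls, Ag, mem_setOf_eq, mem_inter_iff, mem_iInter]
    rw [this]
    exact hK.inter (isClosed_biInter fun B _ => hc B x)
  · intro k u hu v hv huk
    rw [← hhist] at huk ⊢
    have h1 : (st n).2 x = (st n).2 u := hinv n x u fun B hB => hu.2 B (hsub n hB)
    have h2 : (st n).2 x = (st n).2 v := hinv n x v fun B hB => hv.2 B (hsub n hB)
    have h3 : {x | x ∈ col ((st n).2 x) k} ∈ (st (n + 1)).1 := by
      rw [hst]
      exact Or.inr ⟨k, rfl⟩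
    have h4 := hs _ u v ((hE _).trans ((hE _).symm (hu.2 _ h3)) (hv.2 _ h3))
      (show u ∈ col ((st n).2 u) k from h1 ▸ huk)
    rw [h2]
    exact h4
  · obtain ⟨m, rfl⟩ : B ∈ range A := hA ▸ mem_iUnion.2 ⟨_, hB⟩
    exact hxy m

theorem win_LS (hX : Split X) {K : Set X} (hK : IsClosed K) (h : Win K) :
    ∃ Z : Set C(X, ℝ), LS Z ∧ Sep Z K := by
  choose Zs hZs hZA using hX
  obtain ⟨A, hA⟩ := win_seq hK h (fun A => Agree (Zs A))
    (fun A => ⟨Agree.refl _, Agree.symm, Agree.trans⟩)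
    (fun A x => (isClosed_agree _).preimage (Continuous.prodMk_right x)) hZA
  exact ⟨⋃ n, Zs (A n), LS.iUnion fun n => hZs _, fun x hx y hy a =>
    hA x hx y hy fun n => a.mono (subset_iUnion (fun n => Zs (A n)) n)⟩

/-- a continuous chain of good families -/
structure Chain (K : Set X) (τ : Set C(X, ℝ) → Set X) {I : Type} [LinearOrder I]
    (Φ : I → Set C(X, ℝ)) (nxt : I → I) : Prop where
  split : Split X
  tau : Tau K τ
  bd : Bd I
  hn : ∀ i j, nxt i ≤ j ↔ i < j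
  mono : Monotone Φ
  cont : ∀ δ, IsLim δ → Φ δ ⊆ ⋃ i ∈ Iio δ, Φ i
  good : ∀ i, Sep (Φ i) (closure (τ (Φ i)))
  cov : ∀ x ∈ K, ∃ i, x ∈ closure (τ (Φ i))

variable [CompactSpace X] [T2Space X]

/-- countable tightness, with a countable family isolating the point -/
theorem Split.tight' (hX : Split X) {A : Set X} {x : X} (hx : x ∈ closure A) :
    ∃ D : Set X, D.Countable ∧ D ⊆ A ∧ x ∈ closure D ∧ ∃ Φ : Set C(X, ℝ), Φ.Countable ∧
      ∀ z ∈ closure D, Agree Φ z x → z = x := by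
  obtain ⟨Z, hZ, hZx⟩ := hX {x}
  obtain ⟨σ, hσ, hσs⟩ := hZ.exists_sigma
  obtain ⟨τ, hτ, hτA, hτs⟩ := exists_tau A
  obtain ⟨D, hDc, hD⟩ := (hτ.comp (hσ.comp (FinOp.insert x))).exists_fixed
  have key : ∀ z ∈ closure D, Agree (σ (insert x D)) z x → z = x := fun z hz h =>
    hZx x z (hσs (insert x D) z (closure_mono (subset_insert _ _) hz) x
      (subset_closure (mem_insert _ _)) h).symm rfl
  refine ⟨D, hDc, hD ▸ hτA _, ?_, σ (insert x D), hσ.countable (hDc.insert x), key⟩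
  obtain ⟨z, hz, hzx⟩ := hτs (σ (insert x D)) x hx
  rw [hD] at hz
  exact key z hz hzx ▸ hz

theorem Split.tight (hX : Split X) {A : Set X} {x : X} (hx : x ∈ closure A) :
    ∃ D : Set X, D.Countable ∧ D ⊆ A ∧ x ∈ closure D := by
  obtain ⟨D, h1, h2, h3, -⟩ := hX.tight' hx
  exact ⟨D, h1, h2, h3⟩

theorem Split.seq (hX : Split X) {A : Set X} {x : X} (hx : x ∈ closure A) :
    ∃ u : ℕ → X, (∀ n, u n ∈ A) ∧ Tendsto u atTop (𝓝 x) := by
  obtain ⟨D, hDc, hDA, hxD, Φ, hΦc, hΦ⟩ := hX.tight' hx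
  obtain ⟨e, he⟩ : ∃ e : ℕ → C(X, ℝ), Φ ⊆ range e := by
    obtain ⟨e, he⟩ := (hΦc.insert 0).exists_eq_range (insert_nonempty _ _)
    exact ⟨e, he ▸ subset_insert _ _⟩
  have h1 : ∀ n : ℕ, ∃ d ∈ D, ∀ k ≤ n, |e k d - e k x| < 1 / ((n : ℝ) + 1) := by
    intro n
    have ho : IsOpen (⋂ k ∈ Finset.range (n + 1), {d | |e k d - e k x| < 1 / ((n : ℝ) + 1)}) :=
      isOpen_biInter_finset fun k _ =>
        isOpen_lt ((e k).continuous.sub continuous_const).abs continuous_const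
    obtain ⟨d, hd1, hd2⟩ := mem_closure_iff.1 hxD _ ho (mem_iInter₂.2 fun k _ => by
      simp only [mem_setOf_eq, sub_self, abs_zero]; positivity)
    exact ⟨d, hd2, fun k hk => mem_iInter₂.1 hd1 k (Finset.mem_range.2 (Nat.lt_succ_of_le hk))⟩
  choose u hu hu' using h1
  refine ⟨u, fun n => hDA (hu n), ?_⟩
  refine isClosed_closure.isCompact.tendsto_nhds_of_unique_mapClusterPt
    (Eventually.of_forall fun n => subset_closure (hu n)) fun z hz hcl => hΦ z hz ?_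
  intro φ hφ
  obtain ⟨k, rfl⟩ := he hφ
  have h2 : Tendsto (fun n => e k (u n)) atTop (𝓝 (e k x)) := by
    rw [tendsto_iff_dist_tendsto_zero]
    refine squeeze_zero' (Eventually.of_forall fun _ => dist_nonneg) ?_
      tendsto_one_div_add_atTop_nhds_zero_nat
    filter_upwards [eventually_ge_atTop k] with n hn
    exact (hu' n k hn).le
  have h3 : MapClusterPt (e k z) atTop (fun n => e k (u n)) :=
    hcl.tendsto_comp ((e k).continuous.tendsto z)
  exact eq_of_nhds_neBot (h3.clusterPt.mono h2)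

theorem Split.card_closure (hX : Split X) (D : Set X) : #(closure D) ≤ #D ^ ℵ₀ := by
  have h1 : ∀ x : closure D, ∃ u : ℕ → D, Tendsto (fun n => (u n : X)) atTop (𝓝 x) := by
    intro x
    obtain ⟨u, hu, h⟩ := hX.seq x.2
    exact ⟨fun n => ⟨u n, hu n⟩, h⟩
  choose u hu using h1
  have h2 : Function.Injective u := by
    intro x y hxy
    refine Subtype.ext (tendsto_nhds_unique (hu x) ?_)
    rw [hxy]; exact hu y
  simpa [mk_arrow] using mk_le_of_injective h2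

/-- monolithicity -/
theorem Split.mono (hX : Split X) (D : Set X) {μ : Cardinal} (hμ : ℵ₀ ≤ μ) (hD : #D ≤ μ) :
    ∃ Φ : Set C(X, ℝ), #Φ ≤ μ ∧ Sep Φ (closure D) := by
  obtain ⟨W, rfl⟩ : ∃ W : Type, #W = μ := ⟨μ.out, mk_out μ⟩
  have h1 : #(closure D) ≤ #(Set W) := by
    refine (hX.card_closure D).trans ?_
    rw [mk_set]
    calc #D ^ ℵ₀ ≤ (2 ^ #W) ^ ℵ₀ := power_le_power_right (hD.trans (cantor _).le)
      _ = 2 ^ (#W * ℵ₀) := by rw [← power_mul]
      _ = 2 ^ #W := by rw [mul_aleph0_eq hμ]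
  obtain ⟨e⟩ := (Cardinal.le_def _ _).1 h1
  choose Z hZ hZs using hX
  choose σ hσ hσs using fun A => (hZ A).exists_sigma
  let A : W → Set X := fun w => {x | ∃ h : x ∈ closure D, w ∈ e ⟨x, h⟩}
  refine ⟨⋃ w, σ (A w) D, ?_, fun x hx y hy hxy => ?_⟩
  · refine (mk_iUnion_le _).trans ((mul_le_mul' le_rfl (ciSup_le' fun w => ?_)).trans
      (mul_eq_self hμ).le)
    exact (hσ _).card_le hμ hD
  · have h2 : ∀ w, Agree (Z (A w)) x y := fun w =>
      hσs (A w) D x hx y hy (hxy.mono (subset_iUnion (fun w => σ (A w) D) w))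
    have h3 : e ⟨x, hx⟩ = e ⟨y, hy⟩ := by
      ext w
      constructor
      · intro h
        obtain ⟨_, h'⟩ := hZs _ x y (h2 w) ⟨hx, h⟩
        exact h'
      · intro h
        obtain ⟨_, h'⟩ := hZs _ y x (h2 w).symm ⟨hy, h⟩
        exact h'
    exact congrArg Subtype.val (e.injective h3)

variable {K : Set X} {τ : Set C(X, ℝ) → Set X} {I : Type} [LinearOrder I] [WellFoundedLT I]
  {Φ : I → Set C(X, ℝ)} {nxt : I → I}

theorem Chain.xmono (h : Chain K τ Φ nxt) {i j : I} (hij : i ≤ j) :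
    closure (τ (Φ i)) ⊆ closure (τ (Φ j)) := h.tau.closure_mono (h.mono hij)

theorem Chain.stay_of_mem (h : Chain K τ Φ nxt) {x : X} {δ i : I} (hx : x ∈ closure (τ (Φ δ)))
    (hi : δ ≤ i) : x ∈ Stay τ Φ nxt i := ⟨x, h.xmono hi hx, Agree.refl _ _⟩

theorem Chain.bounded (h : Chain K τ Φ nxt) {D : Set X} (hD : D.Countable) (hK : D ⊆ K) :
    ∃ δ, D ⊆ closure (τ (Φ δ)) := by
  have := h.bd.nonempty
  choose! f hf using h.cov
  obtain ⟨b, hb⟩ := h.bd (f '' D) (hD.image f)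
  exact ⟨b, fun x hx => h.xmono (hb _ ⟨x, hx, rfl⟩).le (hf x (hK hx))⟩

theorem Chain.jump_countable (h : Chain K τ Φ nxt) {x : X} (hx : x ∈ K) :
    {i | x ∉ Stay τ Φ nxt i}.Countable := by
  set J := {i | x ∉ Stay τ Φ nxt i} with hJ
  by_contra hc
  obtain ⟨i0, hi0⟩ := h.cov x hx
  have hne : {β | ¬ (J ∩ Iio β).Countable}.Nonempty := by
    refine ⟨i0, fun hcc => hc (Countable.mono (fun i hi => mem_inter hi ?_) hcc)⟩
    by_contra hlt
    exact hi (h.stay_of_mem hi0 (not_lt.1 hlt))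
  let β := wellFounded_lt.min _ hne
  have hβ : ¬ (J ∩ Iio β).Countable := wellFounded_lt.min_mem _ hne
  have hβ' : ∀ i < β, (J ∩ Iio i).Countable := fun i hi => by
    by_contra hcc
    exact wellFounded_lt.not_lt_min {β | ¬ (J ∩ Iio β).Countable} hcc hi
  have hnext : ∀ i < β, ∃ j ∈ J, i < j ∧ j < β := fun i hi => by
    by_contra hcc
    push Not at hcc
    refine hβ (((hβ' i hi).insert i).mono fun j hj => ?_)
    rcases lt_trichotomy j i with h1 | h1 | h1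
    · exact Or.inr ⟨hj.1, h1⟩
    · exact Or.inl h1
    · exact absurd hj.2 (not_lt.2 (hcc j hj.1 h1))
  have hβne : (Iio β).Nonempty := by
    by_contra hcc
    rw [not_nonempty_iff_eq_empty] at hcc
    exact hβ (by simp [hcc])
  have hlim : IsLim β := ⟨hβne, fun i hi => by
    obtain ⟨j, -, h1, h2⟩ := hnext i hi
    exact ⟨j, h1, h2⟩⟩
  obtain ⟨z, hz, hzx⟩ := h.tau.approx (Φ β) x hx
  obtain ⟨B, hBc, hB, hzB⟩ := h.split.tight hz
  have h1 : ∀ b ∈ B, ∃ i ∈ Iio β, b ∈ τ (Φ i) := fun b hb =>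
    h.tau.fin.chain h.mono hβne (h.cont β hlim) (hB hb)
  have := h.bd.nonempty
  choose! f hf hfb using h1
  have h2 : ∃ γ < β, ∀ b ∈ B, f b ≤ γ := by
    by_contra hcc
    push Not at hcc
    refine hβ ((hBc.biUnion fun b hb => hβ' (f b) (hf b hb)).mono fun j hj => ?_)
    obtain ⟨b, hb, hjb⟩ := hcc j hj.2
    exact mem_iUnion₂.2 ⟨b, hb, hj.1, hjb⟩
  obtain ⟨γ, hγ, hγb⟩ := h2
  obtain ⟨j, hjJ, hγj, hjβ⟩ := hnext γ hγ
  refine hjJ ⟨z, closure_mono (fun b hb => ?_) hzB, hzx.mono (h.mono ((h.hn _ _).2 hjβ))⟩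
  exact h.tau.fin.mono _ _ (h.mono ((hγb b hb).trans hγj.le)) (hfb b hb)

theorem Chain.exists_jump (h : Chain K τ Φ nxt) {x : X} (hx : x ∈ K) {δ : I}
    (hδ : x ∉ closure (τ (Φ δ))) : ∃ i, δ ≤ i ∧ x ∉ Stay τ Φ nxt i := by
  by_contra hc
  push Not at hc
  obtain ⟨z, hz, hzx⟩ := h.tau.approx (Φ δ) x hx
  have key : ∀ j, Agree (Φ j) z x := by
    intro j
    induction j using WellFoundedLT.induction with
    | ind j ih =>
      rcases le_or_gt j δ with hj | hj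
      · exact hzx.mono (h.mono hj)
      · by_cases hl : IsLim j
        · intro φ hφ
          obtain ⟨i, hi, hφi⟩ := mem_iUnion₂.1 (h.cont j hl hφ)
          exact ih i hi φ hφi
        · have h1 : ∃ i < j, ∀ k, i < k → j ≤ k := by
            by_contra hcc
            push Not at hcc
            exact hl ⟨⟨δ, hj⟩, hcc⟩
          obtain ⟨i, hi, hik⟩ := h1
          have hδi : δ ≤ i := by
            by_contra hcc
            exact absurd (hik δ (not_le.1 hcc)) (not_le.2 hj)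
          have hji : j ≤ nxt i := hik _ ((h.hn _ _).1 le_rfl)
          obtain ⟨z', hz', hz'x⟩ := hc i hδi
          have h2 : z = z' := h.good i z (h.xmono hδi hz) z' hz'
            ((ih i hi).trans (hz'x.mono (h.mono ((h.hn _ _).1 le_rfl).le)).symm)
          exact h2 ▸ hz'x.mono (h.mono hji)
  obtain ⟨j, hj⟩ := h.cov x hx
  have h3 : z = x := h.good (max j δ) z (h.xmono (le_max_right _ _) hz) x
    (h.xmono (le_max_left _ _) hj) (key _)
  exact hδ (h3 ▸ hz)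

theorem Chain.win (h : Chain K τ Φ nxt) (hw : ∀ i, Win (closure (τ (Φ i))))
    (hkey : ∀ L, IsClosed L → L ⊆ K → (∀ i, ¬ L ⊆ closure (τ (Φ i))) →
      ∃ y ∈ L, ∃ y' ∈ L, ∃ δ, y ∈ closure (τ (Φ δ)) ∧ y' ∉ closure (τ (Φ δ)) ∧
        ∀ i, y' ∈ Stay τ Φ nxt i → y ∈ Stay τ Φ nxt i) : Win K := by
  obtain ⟨A, hA⟩ := exists_type_colouring (fun x : X => {i | x ∉ Stay τ Φ nxt i})
  refine Win.step A fun L hL hLK hm => ?_
  by_contra hc
  obtain ⟨y, hy, y', hy', δ, h1, h2, h3⟩ := hkey L hL hLK fun i hi => hc ((hw i).mono hi)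
  obtain ⟨i, hδi, hi⟩ := h.exists_jump (hLK hy') h2
  obtain ⟨j, hj, hij⟩ := hA y y' (h.jump_countable (hLK hy)) (h.jump_countable (hLK hy'))
    (fun c => hm c y' hy' y hy) (fun k hk hk' => hk (h3 k hk')) i hi
  exact hj (h.stay_of_mem h1 (hδi.trans hij))

theorem Chain.win_reg (h : Chain K τ Φ nxt) (hw : ∀ i, Win (closure (τ (Φ i))))
    (hreg : ∀ i, ∀ S : Set I, #S ≤ max #(Φ i) ℵ₀ → ∃ b, ∀ j ∈ S, j ≤ b) : Win K := by
  refine h.win hw fun L hL hLK hunb => ?_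
  obtain ⟨τL, hτL⟩ := exists_Tau hL
  have := h.bd.nonempty
  choose! f hf using h.cov
  obtain ⟨a, -⟩ := h.bd ∅ countable_empty
  obtain ⟨δ, -, hlim, hδ⟩ := h.bd.club (fun i j => τL (Φ i) ⊆ closure (τ (Φ j))) (fun i => by
      obtain ⟨b, hb⟩ := hreg i (f '' τL (Φ i)) (mk_image_le.trans
        (hτL.fin.card_le (le_max_right _ _) (le_max_left _ _)))
      exact ⟨b, fun x hx => h.xmono (hb _ ⟨x, hx, rfl⟩) (hf x (hLK (hτL.sub _ hx)))⟩)
    (fun i i' j j' hi hj hR => (hτL.fin.mono _ _ (h.mono hi)).trans (hR.trans (h.xmono hj))) a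
  have h1 : τL (Φ δ) ⊆ closure (τ (Φ δ)) := fun b hb => by
    obtain ⟨i, hi, hbi⟩ := hτL.fin.chain h.mono hlim.1 (h.cont δ hlim) hb
    obtain ⟨j, hj, hR⟩ := hδ i hi
    exact h.xmono hj.le (hR hbi)
  obtain ⟨y', hy', hy'δ⟩ := not_subset.1 (hunb δ)
  obtain ⟨y, hy, hyy'⟩ := hτL.approx (Φ δ) y' hy'
  have hyδ : y ∈ closure (τ (Φ δ)) := closure_minimal h1 isClosed_closure hy
  refine ⟨y, hτL.closure_sub _ hy, y', hy', δ, hyδ, hy'δ, fun i hi => ?_⟩
  rcases le_or_gt δ i with hδi | hδi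
  · exact h.stay_of_mem hyδ hδi
  · obtain ⟨z, hz, hzy⟩ := hi
    exact ⟨z, hz, hzy.trans (hyy'.mono (h.mono ((h.hn _ _).2 hδi))).symm⟩

theorem Chain.win_sing (h : Chain K τ Φ nxt) (hw : ∀ i, Win (closure (τ (Φ i))))
    (hsing : ∀ y : I → X, (∀ i, y i ∈ K) → Win (closure (range y))) : Win K := by
  refine h.win hw fun L hL hLK hunb => ?_
  choose y hyL hy using fun i => not_subset.1 (hunb i)
  let K' := closure (range y)
  have hK'L : K' ⊆ L := closure_minimal (range_subset_iff.2 hyL) hL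
  obtain ⟨Z, hZ, hZs⟩ := win_LS h.split isClosed_closure (hsing y fun i => hLK (hyL i))
  obtain ⟨σ, hσ, hσs⟩ := hZ.exists_sigma
  obtain ⟨τ0, hτ0⟩ := exists_Tau (K := K') isClosed_closure
  have hst : ∀ i, IsClosed (Stay τ Φ nxt i) := fun i => isClosed_shadow_fst isClosed_closure _
  choose τs hτs using fun i => exists_Tau (K := K' ∩ Stay τ Φ nxt i)
    (isClosed_closure.inter (hst i))
  let J : X → Set I := fun x => {i | x ∈ K ∧ x ∉ Stay τ Φ nxt i}
  have hJ : ∀ x, (J x).Countable := fun x => by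
    by_cases hx : x ∈ K
    · exact (h.jump_countable hx).mono fun i hi => hi.2
    · exact countable_empty.mono fun i hi => hx hi.1
  obtain ⟨D, hDc, hD⟩ := ((hτ0.fin.comp hσ).union
    (FinOp.param (fun i => (hτs i).fin.comp hσ) J hJ)).exists_fixed
  have hDK' : D ⊆ K' := by
    rw [← hD]
    refine union_subset (hτ0.sub _) (iUnion₂_subset fun a _ => iUnion₂_subset fun i _ => ?_)
    exact ((hτs i).sub _).trans inter_subset_left
  have hDK : closure D ⊆ K' := closure_minimal hDK' isClosed_closure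
  obtain ⟨δ, hδ⟩ := h.bounded hDc (hDK'.trans (hK'L.trans hLK))
  have hy' : y δ ∈ K' := subset_closure ⟨δ, rfl⟩
  obtain ⟨z, hz, hzy⟩ := hτ0.approx (σ D) (y δ) hy'
  have hzD : z ∈ closure D := closure_mono (by
    conv_rhs => rw [← hD]
    exact subset_union_left) hz
  refine ⟨z, hK'L (hDK hzD), y δ, hyL δ, δ, closure_minimal hδ isClosed_closure hzD, hy δ,
    fun i hi => ?_⟩
  by_cases hc : ∃ d ∈ D, i ∈ J d
  · obtain ⟨d, hd, hdi⟩ := hc
    obtain ⟨w, hw, hwy⟩ := (hτs i).approx (σ D) (y δ) ⟨hy', hi⟩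
    have hwD : w ∈ closure D := closure_mono (by
      conv_rhs => rw [← hD]
      intro b hb
      exact Or.inr (mem_iUnion₂.2 ⟨d, hd, mem_iUnion₂.2 ⟨i, hdi, hb⟩⟩)) hw
    have h1 : w = z := hZs w (hDK hwD) z (hDK hzD) (hσs D w hwD z hzD (hwy.trans hzy.symm))
    exact h1 ▸ ((hτs i).closure_sub _ hw).2
  · push Not at hc
    refine closure_minimal (fun d hd => ?_) (hst i) hzD
    by_contra hcc
    exact hc d hd ⟨hLK (hK'L (hDK' hd)), hcc⟩

end

variable {X : Type} [TopologicalSpace X] [CompactSpace X] [T2Space X]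

theorem tight_chain (hX : Split X) {τ : Set C(X, ℝ) → Set X} (hτ : FinOp τ) {Ω : Type}
    [LinearOrder Ω] (hbd : Bd Ω) {Ψ : Ω → Set C(X, ℝ)} (hm : Monotone Ψ) {S : Set C(X, ℝ)}
    (hS : S ⊆ ⋃ ν, Ψ ν) {x : X} (hx : x ∈ closure (τ S)) : ∃ ν, x ∈ closure (τ (Ψ ν)) := by
  have := hbd.nonempty
  obtain ⟨B, hBc, hB, hxB⟩ := hX.tight hx
  have h1 : ∀ b ∈ B, ∃ ν ∈ (univ : Set Ω), b ∈ τ (Ψ ν) := fun b hb =>
    hτ.chain hm univ_nonempty (by simpa using hS) (hB hb)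
  choose! f _ hf using h1
  obtain ⟨ν, hν⟩ := hbd (f '' B) (hBc.image f)
  exact ⟨ν, closure_mono (fun b hb => hτ.mono _ _ (hm (hν _ ⟨b, hb, rfl⟩).le) (hf b hb)) hxB⟩

theorem exists_M (hX : Split X) {τ : Set C(X, ℝ) → Set X} (hτ : FinOp τ) :
    ∃ M : Set C(X, ℝ) → Set C(X, ℝ), ∀ Ψ, #(M Ψ) ≤ max #Ψ ℵ₀ ∧ Sep (M Ψ) (closure (τ Ψ)) := by
  choose M hM using fun Ψ : Set C(X, ℝ) => hX.mono (τ Ψ) (le_max_right #Ψ ℵ₀)
    (hτ.card_le (le_max_right _ _) (le_max_left _ _))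
  exact ⟨M, hM⟩

theorem win_regular (hX : Split X) {K : Set X} (hK : IsClosed K) {κ : Cardinal}
    (hreg : κ.IsRegular) (hκ : ℵ₀ < κ) {Ψ : Set C(X, ℝ)} (hΨ : #Ψ ≤ κ) (hs : Sep Ψ K)
    (IH : ∀ D : Set X, #D < κ → Win (closure D)) : Win K := by
  classical
  rcases K.eq_empty_or_nonempty with rfl | ⟨x0, hx0⟩
  · exact Win.of_subsingleton subsingleton_empty
  have : Nonempty X := ⟨x0⟩
  obtain ⟨τ, hτ⟩ := exists_Tau hK
  obtain ⟨M, hM⟩ := exists_M hX hτ.fin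
  obtain ⟨I, _, _, hI, hIio, hIb⟩ := exists_order hreg
  have hbd : Bd I := fun S hS => hIb S ((le_aleph0_iff_set_countable.2 hS).trans_lt hκ)
  have := hbd.nonempty
  obtain ⟨e, he⟩ := exists_image_cover Ψ (univ : Set I)
  have he' : Ψ ⊆ range e := by simpa using he (by simpa [hI] using hΨ)
  obtain ⟨m, hm⟩ := exists_rec (fun (β : I) (S : Set C(X, ℝ)) => insert (e β) (M S))
  let Φ : I → Set C(X, ℝ) := fun α => ⋃ β ∈ Iio α, m β
  have hmΦ : ∀ β α, β < α → m β ⊆ Φ α := fun β α h => subset_biUnion_of_mem (u := m) h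
  have hmono : Monotone Φ := fun a b hab => biUnion_subset_biUnion_left (Iio_subset_Iio hab)
  have hcont : ∀ δ, IsLim δ → Φ δ ⊆ ⋃ i ∈ Iio δ, Φ i := fun δ hδ φ hφ => by
    obtain ⟨β, hβ, hφ⟩ := mem_iUnion₂.1 hφ
    obtain ⟨j, h1, h2⟩ := hδ.2 β hβ
    exact mem_iUnion₂.2 ⟨j, h2, hmΦ β j h1 hφ⟩
  have hcard : ∀ α, #(Φ α) < κ := by
    intro α
    induction α using WellFoundedLT.induction with
    | ind α ih =>
      refine (card_biUnion_lt_iff_forall_of_isRegular hreg (hIio α)).2 fun β hβ => ?_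
      rw [hm]
      refine mk_insert_le.trans_lt (add_lt_of_lt hκ.le ((hM _).1.trans_lt
        (max_lt (ih β hβ) hκ)) (one_lt_aleph0.trans hκ))
  have hsepU : Sep (⋃ α, Φ α) K := fun x hx y hy hxy => hs x hx y hy (hxy.mono fun φ hφ => by
    obtain ⟨β, rfl⟩ := he' hφ
    obtain ⟨b, hb⟩ := hbd {β} (countable_singleton β)
    exact mem_iUnion.2 ⟨b, hmΦ β b (hb β rfl) (by rw [hm]; exact mem_insert _ _)⟩)
  have hcov : ∀ x ∈ K, ∃ α, x ∈ closure (τ (Φ α)) := fun x hx =>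
    tight_chain hX hτ.fin hbd hmono subset_rfl (hτ.mem_of_sep hsepU hx)
  have hrk : ∀ x ∈ K, ∃ α, x ∈ closure (τ (Φ α)) ∧ ∀ β, x ∈ closure (τ (Φ β)) → α ≤ β :=
    fun x hx => ⟨wellFounded_lt.min _ (hcov x hx), wellFounded_lt.min_mem _ (hcov x hx),
      fun β hβ => not_lt.1 (wellFounded_lt.not_lt_min {α | x ∈ closure (τ (Φ α))} hβ)⟩
  choose! rk hrk1 hrk2 using hrk
  let B : Set I := {α | ¬ Sep (Φ α) (closure (τ (Φ α)))}
  have hB : ∀ α ∈ B, ∃ p ∈ closure (τ (Φ α)), ∃ q ∈ closure (τ (Φ α)),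
      Agree (Φ α) p q ∧ p ≠ q ∧ rk p = α := by
    intro α hα
    simp only [B, Sep, mem_setOf_eq] at hα
    push Not at hα
    obtain ⟨p, hp, q, hq, h1, h2⟩ := hα
    have hpK := hτ.closure_sub _ hp
    have hqK := hτ.closure_sub _ hq
    rcases (hrk2 p hpK α hp).eq_or_lt with h3 | h3
    · exact ⟨p, hp, q, hq, h1, h2, h3⟩
    rcases (hrk2 q hqK α hq).eq_or_lt with h4 | h4
    · exact ⟨q, hq, p, hp, h1.symm, h2.symm, h4⟩
    refine (h2 ((hM (Φ (max (rk p) (rk q)))).2 p ?_ q ?_ (h1.mono ?_))).elim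
    · exact hτ.closure_mono (hmono (le_max_left _ _)) (hrk1 p hpK)
    · exact hτ.closure_mono (hmono (le_max_right _ _)) (hrk1 q hqK)
    · refine subset_trans ?_ (hmΦ _ _ (max_lt h3 h4))
      rw [hm]
      exact subset_insert _ _
  choose! p hp q hq hpq hne hrkp using hB
  obtain ⟨A, hA⟩ := two_colour rk B p q hrkp
    (fun α hα => hrk2 _ (hτ.closure_sub _ (hq α hα)) α (hq α hα)) hne
  obtain ⟨Z, hZ, hZA⟩ := hX A
  obtain ⟨σ, hσ, hσs⟩ := hZ.exists_sigma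
  choose Θ hΘ hΘc hΘs using exists_factor hK hsepU
  let G : Set C(X, ℝ) → Set C(X, ℝ) := fun S => ⋃ h ∈ σ (τ S), Θ h
  have hG : FinOp G := (FinOp.biUnion Θ hΘc).comp (hσ.comp hτ.fin)
  let C : Set I := {δ | G (Φ δ) ⊆ Φ δ}
  have hgood : ∀ δ ∈ C, Sep (Φ δ) (closure (τ (Φ δ))) := by
    intro δ hδ
    by_contra hc
    have h1 : Agree Z (p δ) (q δ) := hσs _ _ (hp δ hc) _ (hq δ hc) fun h hh =>
      hΘs h _ (hτ.closure_sub _ (hp δ hc)) _ (hτ.closure_sub _ (hq δ hc))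
        ((hpq δ hc).mono ((subset_biUnion_of_mem (u := Θ) hh).trans hδ))
    exact hA δ hc ⟨hZA _ _ h1, hZA _ _ h1.symm⟩
  have hunb : ∀ a, ∃ δ ∈ C, a < δ := by
    intro a
    obtain ⟨δ, ha, hlim, hδ⟩ := hbd.club (fun i j => G (Φ i) ⊆ Φ j) (fun i => by
        have h1 : ∀ φ ∈ G (Φ i), ∃ j, φ ∈ Φ j := fun φ hφ => by
          obtain ⟨h, -, hφ⟩ := mem_iUnion₂.1 hφ
          exact mem_iUnion.1 (hΘ h hφ)
        choose! f hf using h1
        obtain ⟨b, hb⟩ := hIb (f '' G (Φ i)) (mk_image_le.trans_lt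
          ((hG.card_le (le_max_right _ _) (le_max_left _ _)).trans_lt (max_lt (hcard i) hκ)))
        exact ⟨b, fun φ hφ => hmono (hb _ ⟨φ, hφ, rfl⟩).le (hf φ hφ)⟩)
      (fun i i' j j' hi hj hR => (hG.mono _ _ (hmono hi)).trans (hR.trans (hmono hj))) a
    refine ⟨δ, fun b hb => ?_, ha⟩
    obtain ⟨i, hi, hbi⟩ := hG.chain hmono hlim.1 (hcont δ hlim) hb
    obtain ⟨j, hj, hR⟩ := hδ i hi
    exact hmono hj.le (hR hbi)
  have hbdC : ∀ S : Set C, #S < κ → ∃ b, ∀ i ∈ S, i < b := fun S hS => by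
    obtain ⟨b, hb⟩ := hIb (Subtype.val '' S) (mk_image_le.trans_lt hS)
    obtain ⟨δ, hδ, hbδ⟩ := hunb b
    exact ⟨⟨δ, hδ⟩, fun i hi => (hb _ ⟨i, hi, rfl⟩).trans hbδ⟩
  have hbdC' : Bd C := fun S hS => hbdC S ((le_aleph0_iff_set_countable.2 hS).trans_lt hκ)
  obtain ⟨nxt, hnxt⟩ := hbdC'.exists_nxt
  have hch : Chain K τ (fun i : C => Φ i) nxt := by
    refine ⟨hX, hτ, hbdC', hnxt, fun i j hij => hmono hij, fun δ hδ => ?_,
      fun i => hgood i i.2, fun x hx => ?_⟩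
    · let T : Set I := {i | i ∈ C ∧ i < δ}
      have hTne : T.Nonempty := by
        obtain ⟨i, hi⟩ := hδ.1
        exact ⟨i, i.2, hi⟩
      have hTm : ∀ i ∈ T, ∃ j ∈ T, i < j := fun i hi => by
        obtain ⟨j, h1, h2⟩ := hδ.2 ⟨i, hi.1⟩ hi.2
        exact ⟨j, ⟨j.2, h2⟩, h1⟩
      have hne : {b | ∀ i ∈ T, i ≤ b}.Nonempty := ⟨δ, fun i hi => hi.2.le⟩
      let β := wellFounded_lt.min _ hne
      have hβ : ∀ i ∈ T, i ≤ β := wellFounded_lt.min_mem _ hne
      have hβ' : ∀ i ∈ T, i < β := fun i hi => by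
        obtain ⟨j, hj, hij⟩ := hTm i hi
        exact hij.trans_le (hβ j hj)
      have hβ2 : ∀ i < β, ∃ j ∈ T, i < j := fun i hi => by
        by_contra hc
        push Not at hc
        exact wellFounded_lt.not_lt_min {b | ∀ i ∈ T, i ≤ b} hc hi
      have hlim : IsLim β := ⟨hTne.imp hβ', fun i hi => by
        obtain ⟨j, hj, hij⟩ := hβ2 i hi
        exact ⟨j, hij, hβ' j hj⟩⟩
      have h1 : Φ β ⊆ ⋃ j ∈ T, Φ j := (hcont β hlim).trans (iUnion₂_subset fun i hi => by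
        obtain ⟨j, hj, hij⟩ := hβ2 i hi
        exact (hmono hij.le).trans (subset_biUnion_of_mem (u := Φ) hj))
      have h2 : β ∈ C := fun b hb => by
        obtain ⟨j, hj, hb⟩ := hG.chain hmono hTne h1 hb
        exact hmono (hβ j hj) (hj.1 hb)
      have h3 : (δ : I) ≤ β := by
        by_contra hc
        exact lt_irrefl _ (hβ' β ⟨h2, not_le.1 hc⟩)
      intro φ hφ
      obtain ⟨j, hj, hφ⟩ := mem_iUnion₂.1 (h1 (hmono h3 hφ))
      exact mem_iUnion₂.2 ⟨⟨j, hj.1⟩, hj.2, hφ⟩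
    · obtain ⟨α, hα⟩ := hcov x hx
      obtain ⟨δ, hδ, hαδ⟩ := hunb α
      exact ⟨⟨δ, hδ⟩, hτ.closure_mono (hmono hαδ.le) hα⟩
  refine hch.win_reg (fun i => IH _ ?_) fun i S hS => ?_
  · exact (hτ.fin.card_le (le_max_right _ _) (le_max_left _ _)).trans_lt (max_lt (hcard i) hκ)
  · obtain ⟨b, hb⟩ := hbdC S (hS.trans_lt (max_lt (hcard i) hκ))
    exact ⟨b, fun j hj => (hb j hj).le⟩

theorem win_singular (hX : Split X) {K : Set X} (hK : IsClosed K) {κ : Cardinal}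
    (hsing : κ.IsSingular) {Ψ : Set C(X, ℝ)} (hΨ : #Ψ ≤ κ) (hs : Sep Ψ K)
    (IH : ∀ D : Set X, #D < κ → Win (closure D)) : Win K := by
  classical
  rcases K.eq_empty_or_nonempty with rfl | ⟨x0, hx0⟩
  · exact Win.of_subsingleton subsingleton_empty
  have : Nonempty X := ⟨x0⟩
  have hκ0 : ℵ₀ ≤ κ := hsing.aleph0_le
  have hκ : ℵ₀ < κ := lt_of_le_of_ne hκ0 fun h => not_isSingular_aleph0 (h ▸ hsing)
  have hκ1 : ℵ₁ < κ := by
    refine lt_of_le_of_ne ?_ fun h => not_isSingular_aleph_one (h ▸ hsing)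
    by_contra hc
    exact absurd (lt_aleph_one_iff.1 (not_le.1 hc)) (not_le.2 hκ)
  obtain ⟨τ, hτ⟩ := exists_Tau hK
  obtain ⟨M, hM⟩ := exists_M hX hτ.fin
  let W := κ.ord.ToType
  have hW : #W = κ := mk_ord_toType κ
  have : NoMaxOrder W := Cardinal.noMaxOrder hκ0
  have hlam : κ.ord.cof.IsRegular := isRegular_cof (isSuccLimit_ord hκ0)
  have hlt : κ.ord.cof < κ := hsing.cof_ord_lt
  obtain ⟨I, _, _, hI, hIio, hIb⟩ := exists_order hlam
  obtain ⟨Ω, _, _, hΩ, -, hΩb⟩ := exists_order isRegular_aleph_one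
  have hΩbd : Bd Ω := fun S hS => hΩb S ((countable_iff_lt_aleph_one S).1 hS)
  have hInext : ∀ i : I, ∃ b, i < b := fun i => by
    obtain ⟨b, hb⟩ := hIb {i} (by simpa using one_lt_aleph0.trans_le hlam.aleph0_le)
    exact ⟨b, hb i rfl⟩
  -- cofinal map
  obtain ⟨c, hc⟩ : ∃ c : I → W, ∀ w, ∃ j, w < c j := by
    obtain ⟨T, hT, hTc⟩ := Order.exists_cof_eq W
    have : Nonempty W := mk_ne_zero_iff.1 (hW ▸ hsing.pos.ne')
    obtain ⟨c, hc⟩ := exists_image_cover T (univ : Set I)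
    have hc' := hc (by rw [hTc, Ordinal.cof_toType, mk_univ, hI])
    refine ⟨c, fun w => ?_⟩
    obtain ⟨w', hw'⟩ := exists_gt w
    obtain ⟨t, ht, hwt⟩ := hT w'
    obtain ⟨j, -, rfl⟩ := hc' ht
    exact ⟨j, hw'.trans_le hwt⟩
  let μ : Cardinal := max κ.ord.cof ℵ₁
  have hμ : μ < κ := max_lt hlt hκ1
  have hμ0 : ℵ₀ ≤ μ := (aleph0_le_aleph 1).trans (le_max_right _ _)
  obtain ⟨Wb, hWb⟩ : ∃ p : Set W, #p = μ := le_mk_iff_exists_set.1 (hW ▸ hμ.le)
  let V : I → Set W := fun i => Wb ∪ ⋃ j ∈ Iio i, Iio (c j)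
  have hVmono : Monotone V := fun a b hab =>
    union_subset_union_right _ (biUnion_subset_biUnion_left (Iio_subset_Iio hab))
  have hVμ : ∀ i, μ ≤ #(V i) := fun i => hWb ▸ mk_le_mk_of_subset subset_union_left
  have hVκ : ∀ i, #(V i) < κ := fun i => by
    obtain ⟨b, hb⟩ := bound_of_lt_cof (c '' Iio i) (mk_image_le.trans_lt (hIio i))
    have h1 : V i ⊆ Wb ∪ Iio b := union_subset_union_right _
      (iUnion₂_subset fun j hj => Iio_subset_Iio (hb _ ⟨j, hj, rfl⟩).le)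
    exact ((mk_le_mk_of_subset h1).trans (mk_union_le _ _)).trans_lt
      (add_lt_of_lt hκ0 (hWb ▸ hμ) (mk_Iio_toType_ord_lt b))
  have hVcont : ∀ δ, IsLim δ → V δ ⊆ ⋃ i ∈ Iio δ, V i := fun δ hδ w hw => by
    rcases hw with hw | hw
    · obtain ⟨i, hi⟩ := hδ.1
      exact mem_iUnion₂.2 ⟨i, hi, Or.inl hw⟩
    · obtain ⟨j, hj, hw⟩ := mem_iUnion₂.1 hw
      obtain ⟨i, h1, h2⟩ := hδ.2 j hj
      exact mem_iUnion₂.2 ⟨i, h2, Or.inr (mem_iUnion₂.2 ⟨j, h1, hw⟩)⟩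
  have hVall : ∀ w, ∃ i, w ∈ V i := fun w => by
    obtain ⟨j, hj⟩ := hc w
    obtain ⟨i, hi⟩ := hInext j
    exact ⟨i, Or.inr (mem_iUnion₂.2 ⟨j, hi, hj⟩)⟩
  obtain ⟨e0, he0⟩ := exists_image_cover Ψ (univ : Set W)
  have he0' : Ψ ⊆ range e0 := by simpa using he0 (by simpa [hW] using hΨ)
  let P : Set (W → C(X, ℝ)) → I → Set C(X, ℝ) := fun E i => ⋃ e ∈ E, e '' V i
  have hPmono : ∀ E E' i, E ⊆ E' → P E i ⊆ P E' i := fun E E' i h =>
    biUnion_subset_biUnion_left h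
  have hPcard : ∀ E : Set (W → C(X, ℝ)), #E ≤ μ → ∀ i, #(P E i) ≤ #(V i) := fun E hE i => by
    refine (mk_biUnion_le _ _).trans ((mul_le_mul' (hE.trans (hVμ i))
      (ciSup_le' fun e => mk_image_le)).trans (mul_eq_self (hμ0.trans (hVμ i))).le)
  choose en hen using fun (E : Set (W → C(X, ℝ))) (i : I) => exists_image_cover (M (P E i)) (V i)
  obtain ⟨m, hm⟩ := exists_rec (fun (_ : Ω) (E : Set (W → C(X, ℝ))) => insert e0 (range (en E)))
  have hmc : ∀ ν, #(m ν) ≤ μ := fun ν => by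
    rw [hm]
    refine mk_insert_le.trans (add_le_of_le hμ0 (mk_range_le.trans ?_) (one_le_aleph0.trans hμ0))
    rw [hI]; exact le_max_left _ _
  let Ea : Set (W → C(X, ℝ)) := ⋃ ν, m ν
  have hEa : #Ea ≤ μ := (mk_iUnion_le _).trans ((mul_le_mul' (hΩ ▸ le_max_right _ _)
    (ciSup_le' hmc)).trans (mul_eq_self hμ0).le)
  let E : Ω → Set (W → C(X, ℝ)) := fun ν => ⋃ ξ ∈ Iio ν, m ξ
  have hEsub : ∀ ν, E ν ⊆ Ea := fun ν => iUnion₂_subset fun ξ _ => subset_iUnion m ξ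
  let Φ : I → Set C(X, ℝ) := P Ea
  have hmono : Monotone Φ := fun a b hab =>
    iUnion₂_mono fun e _ => image_mono (hVmono hab)
  have hcont : ∀ δ, IsLim δ → Φ δ ⊆ ⋃ i ∈ Iio δ, Φ i := fun δ hδ φ hφ => by
    obtain ⟨e, he, w, hw, rfl⟩ := mem_iUnion₂.1 hφ
    obtain ⟨i, hi, hw⟩ := mem_iUnion₂.1 (hVcont δ hδ hw)
    exact mem_iUnion₂.2 ⟨i, hi, mem_iUnion₂.2 ⟨e, he, w, hw, rfl⟩⟩
  have hgood : ∀ i, Sep (Φ i) (closure (τ (Φ i))) := by
    intro i x hx y hy hxy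
    have h1 : Monotone fun ν => P (E ν) i := fun a b hab =>
      hPmono _ _ i (biUnion_subset_biUnion_left (Iio_subset_Iio hab))
    have h2 : Φ i ⊆ ⋃ ν, P (E ν) i := fun φ hφ => by
      obtain ⟨e, he, hφ⟩ := mem_iUnion₂.1 hφ
      obtain ⟨ξ, hξ⟩ := mem_iUnion.1 he
      obtain ⟨b, hb⟩ := hΩbd {ξ} (countable_singleton ξ)
      exact mem_iUnion.2 ⟨b, mem_iUnion₂.2 ⟨e, mem_iUnion₂.2 ⟨ξ, hb ξ rfl, hξ⟩, hφ⟩⟩
    obtain ⟨ν1, h3⟩ := tight_chain hX hτ.fin hΩbd h1 h2 hx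
    obtain ⟨ν2, h4⟩ := tight_chain hX hτ.fin hΩbd h1 h2 hy
    refine (hM (P (E (max ν1 ν2)) i)).2 x (hτ.closure_mono (h1 (le_max_left _ _)) h3) y
      (hτ.closure_mono (h1 (le_max_right _ _)) h4) (hxy.mono ?_)
    refine (hen _ i ((hM _).1.trans (max_le (hPcard _
      ((mk_le_mk_of_subset (hEsub _)).trans hEa) i) (hμ0.trans (hVμ i))))).trans ?_
    refine subset_biUnion_of_mem (u := fun e : W → C(X, ℝ) => e '' V i) ?_
    refine mem_iUnion.2 ⟨max ν1 ν2, ?_⟩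
    rw [hm]
    exact Or.inr ⟨i, rfl⟩
  have hsepU : Sep (⋃ i, Φ i) K := fun x hx y hy hxy => hs x hx y hy (hxy.mono fun φ hφ => by
    obtain ⟨w, rfl⟩ := he0' hφ
    obtain ⟨i, hi⟩ := hVall w
    obtain ⟨ν⟩ := hΩbd.nonempty
    refine mem_iUnion.2 ⟨i, mem_iUnion₂.2 ⟨e0, mem_iUnion.2 ⟨ν, ?_⟩, w, hi, rfl⟩⟩
    rw [hm]
    exact mem_insert _ _)
  have hw : ∀ i, Win (closure (τ (Φ i))) := fun i => IH _
    ((hτ.fin.card_le (hμ0.trans (hVμ i)) (hPcard Ea hEa i)).trans_lt (hVκ i))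
  rcases hlam.aleph0_le.eq_or_lt with h0 | h0
  · have : Countable I := mk_le_aleph0_iff.1 (by rw [hI, ← h0])
    exact hτ.win_countable Φ hgood hw hsepU
  · have hbd : Bd I := fun S hS => hIb S ((le_aleph0_iff_set_countable.2 hS).trans_lt h0)
    obtain ⟨nxt, hnxt⟩ := hbd.exists_nxt
    have hch : Chain K τ Φ nxt := ⟨hX, hτ, hbd, hnxt, hmono, hcont, hgood, fun x hx =>
      tight_chain hX hτ.fin hbd hmono subset_rfl (hτ.mem_of_sep hsepU hx)⟩
    exact hch.win_sing hw fun y _ => IH _ (mk_range_le.trans_lt (hI ▸ hlt))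

theorem win_all (hX : Split X) (κ : Cardinal) : ∀ {K : Set X}, IsClosed K →
    ∀ {Ψ : Set C(X, ℝ)}, #Ψ ≤ κ → Sep Ψ K → Win K := by
  induction κ using WellFoundedLT.induction with
  | ind κ ih =>
    intro K hK Ψ hΨ hs
    rcases le_or_gt κ ℵ₀ with h0 | h0
    · exact Win.of_countable (le_aleph0_iff_set_countable.1 (hΨ.trans h0)) hs
    have IH : ∀ D : Set X, #D < κ → Win (closure D) := fun D hD => by
      obtain ⟨Φ, h1, h2⟩ := hX.mono D (le_max_right #D ℵ₀) (le_max_left _ _)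
      exact ih _ (max_lt hD h0) isClosed_closure h1 h2
    rcases isRegular_or_isSingular h0.le with h | h
    · exact win_regular hX hK h h0 hΨ hs IH
    · exact win_singular hX hK h hΨ hs IH

theorem Split.win (hX : Split X) : Win (univ : Set X) := by
  refine win_all hX _ isClosed_univ (Ψ := univ) le_rfl fun x _ y _ h => ?_
  by_contra hne
  obtain ⟨f, hf⟩ := exists_sep_fun hne
  exact hf (h f trivial)

omit [CompactSpace X] [T2Space X] in
theorem split_of_hyp (h : ∀ A : Set X, ∃ (Y : Type) (_ : TopologicalSpace Y), CompactSpace Y ∧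
    T2Space Y ∧ (Gul Y ∨ ∃ (Γ : Type) (e : Y → Γ → ℝ), IsEmbedding e ∧
      ∀ y, {γ | e y γ ≠ 0}.Countable) ∧ ∃ f : X → Y, Continuous f ∧ f ⁻¹' (f '' A) = A) :
    Split X := by
  intro A
  obtain ⟨Y, _, _, _, hY, f, hf, hA⟩ := h A
  have key : ∀ x y, f x = f y → x ∈ A → y ∈ A := fun x y e hx => by
    rw [← hA]
    exact ⟨x, hx, e⟩
  rcases hY with hY | ⟨Γ, e, he, hc⟩
  · refine ⟨_, (hY.ls.comp ⟨f, hf⟩).exists_sigma, fun x y hxy => key x y ?_⟩
    by_contra hne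
    obtain ⟨g, hg⟩ := exists_sep_fun hne
    exact hg (hxy _ ⟨g, trivial, rfl⟩)
  · refine ⟨_, LS.of_countable (fun γ => ⟨fun x => e (f x) γ,
      (continuous_apply γ).comp (he.continuous.comp hf)⟩) fun x => hc (f x),
      fun x y hxy => key x y (he.injective (funext fun γ => hxy _ ⟨γ, rfl⟩))⟩

theorem Split.seq_maps (hX : Split X) (Y : Set X → Type) [∀ A, TopologicalSpace (Y A)]
    [∀ A, T1Space (Y A)] (f : ∀ A, X → Y A) (hf : ∀ A, Continuous (f A) ∧ f A ⁻¹' (f A '' A) = A) :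
    ∃ A : ℕ → Set X, ∀ x y, (∀ n, f (A n) x = f (A n) y) → x = y := by
  obtain ⟨A, hA⟩ := win_seq isClosed_univ hX.win (fun A x y => f A x = f A y)
    (fun A => ⟨fun _ => rfl, Eq.symm, Eq.trans⟩)
    (fun A x => by
      have := (isClosed_singleton (x := f A x)).preimage (hf A).1
      simpa only [preimage, mem_singleton_iff, eq_comm] using this)
    (fun A x y e hx => by
      rw [← (hf A).2]
      exact ⟨x, hx, e⟩)
  exact ⟨A, fun x y => hA x trivial y trivial⟩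

end Pool.Agent.MP_353077_gt.Cs
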